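import Mathlib
import Pool.Agent.LeoD.LocStmts

/-!
# CRD (squad LEOD): products of local sets of residue classes
-/

set_option autoImplicit false

open NumberField IsDedekindDomain Module

namespace Pool.Agent.LeoD.H86

theorem crd : Pool.Agent.LeoD.CrdStmt := by
  classical
  intro k _ _ Q a ι _ T hT
  have hpr : ∀ p ∈ Q, Prime (p : HeightOneSpectrum (𝓞 k)).asIdeal := fun p _ => p.prime
  have hco : ∀ p ∈ Q, ∀ q ∈ Q, p ≠ q →
      (p : HeightOneSpectrum (𝓞 k)).asIdeal ≠ (q : HeightOneSpectrum (𝓞 k)).asIdeal :=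
    fun p _ q _ h h2 => h (HeightOneSpectrum.ext h2)
  let e := IsDedekindDomain.quotientEquivPiOfFinsetProdEq (∏ p ∈ Q, p.asIdeal ^ a p)
    (fun p : HeightOneSpectrum (𝓞 k) => p.asIdeal) a hpr hco rfl
  have he : ∀ (x : 𝓞 k) (p : Q), e (Ideal.Quotient.mk _ x) p = Ideal.Quotient.mk _ x :=
    fun x p => rfl
  -- the bijection
  let E : (ι → 𝓞 k ⧸ ∏ p ∈ Q, p.asIdeal ^ a p) → ∀ p : Q, ι → 𝓞 k ⧸ p.1.asIdeal ^ a p.1 :=
    fun v p i => e (v i) p
  have hE : Function.Injective E := by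
    intro v w hvw
    funext i
    apply e.injective
    funext p
    exact congrFun (congrFun hvw p) i
  set S : ∀ p : HeightOneSpectrum (𝓞 k), Set (ι → 𝓞 k ⧸ p.asIdeal ^ a p) := fun p =>
    (fun (v : ι → 𝓞 k) (i : ι) => Ideal.Quotient.mk (p.asIdeal ^ a p) (v i)) '' T p with hS
  set W : Set (ι → 𝓞 k ⧸ ∏ p ∈ Q, p.asIdeal ^ a p) :=
    (fun (v : ι → 𝓞 k) (i : ι) => Ideal.Quotient.mk (∏ p ∈ Q, p.asIdeal ^ a p) (v i)) ''
      {v | ∀ p ∈ Q, v ∈ T p} with hW
  have himg : E '' W = Set.pi Set.univ (fun p : Q => S p.1) := by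
    ext y
    constructor
    · rintro ⟨w, ⟨v, hv, rfl⟩, rfl⟩
      intro p _
      exact ⟨v, hv p.1 p.2, rfl⟩
    · intro hy
      choose v hv hvy using fun p : Q => hy p (Set.mem_univ p)
      have hx : ∀ i, ∃ x : 𝓞 k, ∀ (p : HeightOneSpectrum (𝓞 k)) (hp : p ∈ Q),
          x - v ⟨p, hp⟩ i ∈ p.asIdeal ^ a p := fun i =>
        IsDedekindDomain.exists_forall_sub_mem_ideal
          (fun p : HeightOneSpectrum (𝓞 k) => p.asIdeal) a hpr hco (fun p => v p i)
      choose x hx using hx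
      refine ⟨fun i => Ideal.Quotient.mk _ (x i), ⟨x, ?_, rfl⟩, ?_⟩
      · intro p hp
        refine hT p hp _ (hv ⟨p, hp⟩) x (fun i => ?_)
        rw [← neg_sub]
        exact neg_mem (hx i p hp)
      · funext p i
        change Ideal.Quotient.mk (p.1.asIdeal ^ a p.1) (x i) = y p i
        rw [← hvy p]
        exact Ideal.Quotient.eq.2 (hx i p.1 p.2)
  rw [← Set.ncard_image_of_injective W hE, himg]
  change Nat.card (Set.pi Set.univ (fun p : Q => S p.1)) = _
  rw [Nat.card_congr (Equiv.Set.univPi fun p : Q => S p.1), Nat.card_pi]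
  exact Finset.prod_coe_sort Q (fun p => (S p).ncard)

end Pool.Agent.LeoD.H86
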