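import Mathlib
import Pool.Agent.LeoD.LocStmts

/-!
# GSC (squad LEOD): scaled forms
-/

set_option autoImplicit false

open NumberField IsDedekindDomain Module
open Pool.Agent.LeoK Pool.Agent.LeoG Pool.Agent.LeoC

namespace Pool.Agent.LeoD.H86

section

variable {k : Type} [Field k] [NumberField k]

theorem card_quot (I : Ideal (𝓞 k)) : Nat.card (𝓞 k ⧸ I) = Ideal.absNorm I := by
  rw [Ideal.absNorm_apply, Submodule.cardQuot_apply]

theorem np_pos (p : HeightOneSpectrum (𝓞 k)) : 0 < np p := by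
  unfold np
  have : Ideal.absNorm p.asIdeal ≠ 0 := by
    rw [Ne, Ideal.absNorm_eq_zero_iff]
    exact p.ne_bot
  exact_mod_cast Nat.pos_of_ne_zero this

/-- the number of classes modulo `p ^ a` in `p ^ m` -/
theorem card_ker (p : HeightOneSpectrum (𝓞 k)) {m a : ℕ} (h : p.asIdeal ^ a ≤ p.asIdeal ^ m) :
    (Nat.card (RingHom.ker (Ideal.Quotient.factor h)) : ℝ) = np p ^ a / np p ^ m := by
  set f : (𝓞 k ⧸ p.asIdeal ^ a) →+ (𝓞 k ⧸ p.asIdeal ^ m) :=
    (Ideal.Quotient.factor h).toAddMonoidHom with hf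
  have hsur : Function.Surjective f := Ideal.Quotient.factor_surjective h
  have h1 : Nat.card (𝓞 k ⧸ p.asIdeal ^ a) =
      Nat.card ((𝓞 k ⧸ p.asIdeal ^ a) ⧸ f.ker) * Nat.card f.ker :=
    AddSubgroup.card_eq_card_quotient_mul_card_addSubgroup _
  have h2 : Nat.card ((𝓞 k ⧸ p.asIdeal ^ a) ⧸ f.ker) = Nat.card (𝓞 k ⧸ p.asIdeal ^ m) :=
    Nat.card_congr (QuotientAddGroup.quotientKerEquivOfSurjective f hsur).toEquiv
  have h3 : Nat.card f.ker = Nat.card (RingHom.ker (Ideal.Quotient.factor h)) := rfl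
  rw [h2, h3, card_quot, card_quot, map_pow, map_pow] at h1
  rw [eq_div_iff (pow_ne_zero _ (np_pos p).ne'), mul_comm]
  unfold np
  exact_mod_cast h1.symm

end

theorem gsc : Pool.Agent.LeoD.GscStmt := by
  classical
  intro k _ _ p π n a c T hπ hn
  have hfin : ∀ j : ℕ, Finite (𝓞 k ⧸ p.asIdeal ^ j) := fun j =>
    Ideal.finiteQuotientOfFreeOfNeBot _ (pow_ne_zero j p.ne_bot)
  have hle : ∀ i, p.asIdeal ^ a ≤ p.asIdeal ^ (n i + c) := fun i => Ideal.pow_le_pow_right (hn i)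
  set L : Set (Q4 (𝓞 k ⧸ p.asIdeal ^ a)) :=
    modQ (p.asIdeal ^ a) '' {F | ∃ f ∈ T, ∀ i, F i - π ^ n i * f i ∈ p.asIdeal ^ a} with hL
  set W : Set (Q4 (𝓞 k ⧸ p.asIdeal ^ c)) := modQ (p.asIdeal ^ c) '' T with hW
  have hrep : ∀ t : W, ∃ f ∈ T, modQ (p.asIdeal ^ c) f = t.1 := fun t => t.2
  choose r hr hrt using hrep
  have hG : ∀ G : L, ∃ t : W, ∀ i, G.1 i - Ideal.Quotient.mk _ (π ^ n i * r t i) ∈
      RingHom.ker (Ideal.Quotient.factor (hle i)) := by
    rintro ⟨G, F, ⟨f, hf, hF⟩, rfl⟩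
    refine ⟨⟨_, f, hf, rfl⟩, fun i => ?_⟩
    set t : W := ⟨_, f, hf, rfl⟩ with ht
    have h1 : f i - r t i ∈ p.asIdeal ^ c := by
      have h2 := congrFun (hrt t) i
      exact Ideal.Quotient.eq.1 h2.symm
    have h3 : π ^ n i * (f i - r t i) ∈ p.asIdeal ^ (n i + c) := (hπ.iff (n i) c _).2 h1
    have h4 : F i - π ^ n i * r t i ∈ p.asIdeal ^ (n i + c) := by
      have h5 := add_mem (hle i (hF i)) h3
      have h6 : F i - π ^ n i * f i + π ^ n i * (f i - r t i) = F i - π ^ n i * r t i := by ring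
      rwa [h6] at h5
    rw [RingHom.mem_ker]
    change Ideal.Quotient.factor (hle i)
      (Ideal.Quotient.mk (p.asIdeal ^ a) (F i) - Ideal.Quotient.mk _ (π ^ n i * r t i)) = 0
    rw [← map_sub, Ideal.Quotient.factor_mk]
    exact Ideal.Quotient.eq_zero_iff_mem.2 h4
  choose τ hτ using hG
  let Φ : L → W × (∀ i, RingHom.ker (Ideal.Quotient.factor (hle i))) := fun G =>
    (τ G, fun i => ⟨G.1 i - Ideal.Quotient.mk _ (π ^ n i * r (τ G) i), hτ G i⟩)
  have hΦ : Function.Injective Φ := by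
    intro G G' h
    have h1 : τ G = τ G' := congrArg Prod.fst h
    have h2 := congrArg Prod.snd h
    apply Subtype.ext
    funext i
    have h3 := congrArg Subtype.val (congrFun h2 i)
    change G.1 i - Ideal.Quotient.mk _ (π ^ n i * r (τ G) i) =
      G'.1 i - Ideal.Quotient.mk _ (π ^ n i * r (τ G') i) at h3
    rw [h1] at h3
    exact sub_left_injective h3
  have hcard := Nat.card_le_card_of_injective Φ hΦ
  rw [Nat.card_prod, Nat.card_pi] at hcard
  have h5 : (L.ncard : ℝ) ≤ (W.ncard : ℝ) *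
      ∏ i, (Nat.card (RingHom.ker (Ideal.Quotient.factor (hle i))) : ℝ) := by
    exact_mod_cast hcard
  refine h5.trans (le_of_eq ?_)
  rw [mul_comm]
  congr 1
  rw [Finset.prod_congr rfl (fun i _ => card_ker p (hle i)), Finset.prod_div_distrib,
    Finset.prod_const, Finset.card_univ, Fintype.card_fin, Finset.prod_pow_eq_pow_sum, ← pow_mul,
    Finset.sum_add_distrib, Finset.sum_const, Finset.card_univ, Fintype.card_fin, smul_eq_mul,
    mul_comm a 4]

end Pool.Agent.LeoD.H86
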