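import Mathlib
import Pool.Agent.Helper56_Leo4.Rqu
import Pool.Agent.LeoD.QuarStmts

/-!
# QL2 (squad LEOD): Leopoldt's conjecture for real quadratic fields
-/

set_option autoImplicit false

open NumberField NumberField.InfinitePlace Module

namespace Pool.Agent.LeoD.H86

theorem ql2 : Pool.Agent.LeoD.Ql2Stmt := by
  intro k _ _ hk htr
  refine Pool.Agent.Leo4.H56.rqu k ?_
  have h1 : Fintype.card (InfinitePlace k) = 2 := by
    rw [← hk]
    have h2 := card_add_two_mul_card_eq_rank k
    have h3 : nrComplexPlaces k = 0 := nrComplexPlaces_eq_zero_iff.2 htr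
    have h4 := card_eq_nrRealPlaces_add_nrComplexPlaces k
    omega
  rw [Units.rank, h1]

end Pool.Agent.LeoD.H86
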